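import Pool.Agent.Helper10.TW.Defs
import Pool.Agent.Helper21.SI.P2
import Pool.Agent.Helper29.SI.P1a
import Pool.Agent.Helper29.SI.P1b

/-! Project TW, leaf B: the palindromes with prescribed first digits which are coprime to 10. -/

set_option autoImplicit false

namespace Pool.Agent.Helper10.TW

open Finset Filter Pool.Agent.Helper10 Pool.Agent.Helper10.P5 Pool.Agent.Helper10.P4
  Pool.Agent.Helper10.P3 Pool.Agent.Helper10.SQ Pool.Agent.Helper10.EN Pool.Agent.Helper15.SI

theorem b_sy (n N : ℕ) : N ∈ Pal n ↔ Sy (2 * n + 1) N ∧ 10 ^ (2 * n) ≤ N := by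
  rw [mem_Pal, isPalD_iff (2 * n + 1) N (by omega), Nat.add_sub_cancel]

theorem b_last (n N : ℕ) (h : Sy (2 * n + 1) N) : N % 10 = N / 10 ^ (2 * n) := by
  have h1 := h.2 0 (by omega)
  rw [pow_zero, Nat.div_one, Nat.sub_zero, Nat.add_sub_cancel] at h1
  rw [h1, Nat.mod_eq_of_lt]
  rw [Nat.div_lt_iff_lt_mul (by positivity)]
  have h2 := h.1
  rwa [pow_succ'] at h2

theorem b_cop (N : ℕ) : N.Coprime 10 ↔ (N % 10).Coprime 10 := by
  unfold Nat.Coprime
  rw [Nat.gcd_comm N 10, Nat.gcd_rec 10 N]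

theorem b_mem (n k w N : ℕ) (h : N ∈ PW n k w) : Sy (2 * n + 1) N ∧ N / 10 ^ (2 * n + 1 - k) = w := by
  unfold PW at h
  rw [mem_filter, b_sy] at h
  exact ⟨h.1.1, h.2⟩

theorem b_card (n k w : ℕ) (hk : 1 ≤ k) (hkn : k ≤ n) (hw1 : 10 ^ (k - 1) ≤ w)
    (hw : w < 10 ^ k) : (PW n k w).card = 10 ^ (n - k + 1) := by
  obtain ⟨b, hb⟩ := pw_count (fun l N hl => isPalD_iff l N hl) (fun l k w hw => sy_prefix l k w hw)
    n k w hk hkn hw1 hw 1 0 (Nat.coprime_one_left 10)
  have h1 : (PW n k w).filter (fun N => N ≡ 0 [MOD 1]) = PW n k w :=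
    Finset.filter_true_of_mem fun N _ => Nat.modEq_one
  have h2 : sc (n - k) 1 b = (SS (2 * (n - k) + 1)).card := by
    unfold sc
    rw [Finset.filter_true_of_mem fun N _ => Nat.modEq_one]
  rw [h1, h2, card_SS_of (fun l c N hc => sy_step l c N hc)] at hb
  exact hb

/-- TW-B. Members and their number: `G` of the statement. -/
theorem card_cop (n k w : ℕ) (hk : 1 ≤ k) (hkn : k ≤ n) (hw1 : 10 ^ (k - 1) ≤ w) (hw : w < 10 ^ k) :
    (∀ N ∈ PW n k w, (N.Coprime 10 ↔ (w / 10 ^ (k - 1)).Coprime 10)) ∧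
    (PW n k w).card = 10 ^ (n - k + 1) := by
  refine ⟨fun N hN => ?_, b_card n k w hk hkn hw1 hw⟩
  obtain ⟨h1, h2⟩ := b_mem n k w N hN
  have h3 : w / 10 ^ (k - 1) = N / 10 ^ (2 * n) := by
    rw [← h2, Nat.div_div_eq_div_mul, ← pow_add]
    congr 2
    omega
  rw [b_cop N, b_last n N h1, h3]

/-- TW-B0. `k = 0`. -/
theorem card_cop0 (n : ℕ) (hn : 1 ≤ n) :
    ((PW n 0 0).filter (fun N => N.Coprime 10)).card = 4 * 10 ^ n := by
  have hm : ∀ N ∈ (PW n 0 0).filter (fun N => N.Coprime 10), N / 10 ^ (2 * n) ∈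
      ({1, 3, 7, 9} : Finset ℕ) := by
    intro N hN
    rw [mem_filter] at hN
    obtain ⟨h1, -⟩ := b_mem n 0 0 N hN.1
    have h2 := hN.2
    rw [b_cop N, b_last n N h1] at h2
    have h3 : N / 10 ^ (2 * n) < 10 := by
      rw [← b_last n N h1]
      exact Nat.mod_lt _ (by norm_num)
    generalize N / 10 ^ (2 * n) = d at h2 h3
    interval_cases d <;> first | decide | (exfalso; revert h2; decide)
  rw [Finset.card_eq_sum_card_fiberwise hm]
  have hf : ∀ w ∈ ({1, 3, 7, 9} : Finset ℕ),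
      (((PW n 0 0).filter (fun N => N.Coprime 10)).filter (fun N => N / 10 ^ (2 * n) = w)).card =
        10 ^ n := by
    intro w hw
    have hw1 : 1 ≤ w ∧ w < 10 ∧ w.Coprime 10 := by
      simp only [Finset.mem_insert, Finset.mem_singleton] at hw
      rcases hw with rfl | rfl | rfl | rfl <;> decide
    have hc := card_cop n 1 w le_rfl hn (by simpa using hw1.1) (by simpa using hw1.2.1)
    have he : ((PW n 0 0).filter (fun N => N.Coprime 10)).filter (fun N => N / 10 ^ (2 * n) = w) =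
        PW n 1 w := by
      ext N
      constructor
      · intro h
        rw [mem_filter, mem_filter] at h
        obtain ⟨⟨h1, -⟩, h2⟩ := h
        unfold PW at h1 ⊢
        rw [mem_filter] at h1 ⊢
        exact ⟨h1.1, by simpa using h2⟩
      · intro h
        have h0 := (hc.1 N h).2 (by simpa using hw1.2.2)
        rw [mem_filter, mem_filter]
        obtain ⟨h1, h2⟩ := b_mem n 1 w N h
        refine ⟨⟨?_, h0⟩, by simpa using h2⟩
        unfold PW at h ⊢
        rw [mem_filter] at h ⊢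
        exact ⟨h.1, Nat.div_eq_of_lt h1.1⟩
    rw [he, hc.2]
    congr 1
    omega
  rw [Finset.sum_congr rfl hf]
  simp

end Pool.Agent.Helper10.TW
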